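import Pool.Agent.W115.Mon2.Few
import Pool.Agent.W115.RC.Approx

/-!
The sunflower lemma for constraint systems whose constraints are deleted at random, in the form
needed for chains of closed families.
-/

set_option linter.unusedSectionVars false

namespace Pool.Agent.W115.Mon2

open Finset Mon

variable {V Q C : Type} [Fintype V] [DecidableEq V] [Fintype Q] [DecidableEq Q]
  [Fintype C] [DecidableEq C]

open Classical in
/-- **Sunflower lemma for constraint systems with random deletions.** -/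
theorem flower_link (Γ : CSys V Q C) {k w b r κ B ℓ s : ℕ} (hk : ∀ c, (Γ.vars c).card ≤ k)
    (bad : Finset V → Finset C → Prop)
    (hcount : ∀ Z : Finset V, Z.card ≤ k * w → ∀ t, 1 ≤ t → t ≤ w →
      (univ.filter fun T : Finset C => T.card = t ∧ bad Z T).card ≤ B ^ t)
    (hext : ∀ (Z : Finset V) (ψ : Finset C) (a : V → Q),
      (∀ T, T ⊆ ψ → T.Nonempty → ¬ bad Z T) →
      ∃ α : V → Q, (∀ v ∈ Z, α v = a v) ∧ Γ.Sats ψ α)
    (hb : 1 ≤ b) (hs : 1 ≤ s) (hr : 8 * (B * κ ^ k) ≤ r) (hr1 : 1 ≤ r) (hκ1 : 1 ≤ κ)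
    (hκ : 20 * (b * Fintype.card Q) * (k * w) ≤ κ) (hr2 : 20 * ((b * s) * κ ^ k) * w ≤ r)
    (F : Finset (Finset C)) (hℓw : ℓ ≤ w) (hF : ∀ ψ ∈ F, ψ.card = ℓ)
    (hcard : r ^ ℓ < F.card) :
    ∃ (ψ₀ : Finset C) (L : Finset (Finset C)), L ⊆ F ∧ L.Nonempty ∧ (∀ ψ ∈ L, ψ₀ ⊂ ψ) ∧
      (univ.filter fun ω : ∀ x, Alph V C Q s x =>
        Keep Γ ψ₀ ω ∧ ∀ ψ ∈ L, ¬ Keep Γ ψ ω).card * 4 ^ b ≤
        Fintype.card (∀ x, Alph V C Q s x) := by
  obtain ⟨ψ₀, Z, hZ, hne, hss, hTY⟩ := core_exists Γ hk hr1 hκ1 F hF hcard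
  set G := link Γ F ψ₀ Z with hG
  have hGF : G ⊆ F := Finset.filter_subset _ _
  obtain ⟨ψ₁, hψ₁⟩ := hne
  refine ⟨ψ₀, G, hGF, ⟨ψ₁, hψ₁⟩, hss, ?_⟩
  have hZc : Z.card ≤ k * w := by
    have h1 : Z ⊆ Γ.vs ψ₁ := by
      have := hψ₁
      rw [hG, link, mem_filter] at this
      exact this.2.2
    calc Z.card ≤ (Γ.vs ψ₁).card := Finset.card_le_card h1
      _ ≤ k * ψ₁.card := Γ.vs_card hk ψ₁
      _ ≤ k * w := by
          rw [hF _ (hGF hψ₁)]
          exact Nat.mul_le_mul_left _ hℓw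
  have hT : ∀ T : Finset C, Disjoint T ψ₀ →
      (G.filter fun ψ => T ⊆ ψ).card * r ^ T.card ≤ G.card * κ ^ (k * T.card) := by
    intro T hTd
    have := hTY T ∅ hTd (Finset.disjoint_empty_left _)
    simpa using this
  have hfew := bad_few (bad Z) G ψ₀ (fun ψ hψ => by rw [hF _ (hGF hψ)]; exact hℓw) hT
    (hcount Z hZc) hr hr1
  set G' := G.filter fun ψ => ¬ ∃ T, T ⊆ ψ \ ψ₀ ∧ T.Nonempty ∧ bad Z T with hG'
  have hG'G : G' ⊆ G := Finset.filter_subset _ _
  have hGpos : 0 < G.card := Finset.card_pos.mpr ⟨ψ₁, hψ₁⟩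
  have hsplit := Finset.card_filter_add_card_filter_not
    (s := G) (fun ψ => ∃ T, T ⊆ ψ \ ψ₀ ∧ T.Nonempty ∧ bad Z T)
  have h67 : 6 * G.card ≤ 7 * G'.card := by
    rw [hG']
    omega
  have hG'pos : 0 < G'.card := by omega
  -- pair sum
  have hps := pair_sum Γ (k := k) (κ := κ) (r := r) (N := k * w) (M := w)
    (x := b * Fintype.card Q) (y := b * s) G G' ψ₀ Z hG'G hκ1 hr1 hTY
    (by
      intro ψ hψ
      calc (Γ.vs ψ \ Z).card ≤ (Γ.vs ψ).card := Finset.card_le_card sdiff_subset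
        _ ≤ k * ψ.card := Γ.vs_card hk ψ
        _ ≤ k * w := by
            rw [hF _ (hGF (hG'G hψ))]
            exact Nat.mul_le_mul_left _ hℓw)
    (by
      intro ψ hψ
      calc (ψ \ ψ₀).card ≤ ψ.card := Finset.card_le_card sdiff_subset
        _ ≤ w := by rw [hF _ (hGF (hG'G hψ))]; exact hℓw) hκ hr2
  let U : Finset C → Finset (V ⊕ C) := fun ψ => (Γ.vs ψ \ Z).disjSum (ψ \ ψ₀)
  have hU : ∀ ψ φ, ∏ x ∈ U ψ ∩ U φ, ((b : ℝ) * Fintype.card (Alph V C Q s x)) =
      ((b * Fintype.card Q : ℕ) : ℝ) ^ ((Γ.vs ψ \ Z) ∩ (Γ.vs φ \ Z)).card *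
      ((b * s : ℕ) : ℝ) ^ ((ψ \ ψ₀) ∩ (φ \ ψ₀)).card := by
    intro ψ φ
    have h1 : U ψ ∩ U φ =
        ((Γ.vs ψ \ Z) ∩ (Γ.vs φ \ Z)).disjSum ((ψ \ ψ₀) ∩ (φ \ ψ₀)) := by
      ext x
      rcases x with v | c
      · simp only [U, mem_inter, Finset.inl_mem_disjSum]
      · simp only [U, mem_inter, Finset.inr_mem_disjSum]
    have h2 : ∀ v : V, Fintype.card (Alph V C Q s (Sum.inl v)) = Fintype.card Q := fun _ => rfl
    have h3 : ∀ c : C, Fintype.card (Alph V C Q s (Sum.inr c)) = s := fun _ =>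
      Fintype.card_fin s
    rw [h1, Finset.prod_disjSum]
    simp only [h2, h3, Finset.prod_const]
    push_cast
    ring
  have hps' : ∑ ψ ∈ G', ∑ φ ∈ G', ∏ x ∈ U ψ ∩ U φ,
      ((b : ℝ) * Fintype.card (Alph V C Q s x)) ≤ (4 / 3) * (G'.card : ℝ) ^ 2 := by
    simp_rw [hU]
    refine hps.trans ?_
    have h1 : (6 : ℝ) * G.card ≤ 7 * G'.card := by exact_mod_cast h67
    have h2 : (0 : ℝ) < G'.card := by exact_mod_cast hG'pos
    nlinarith
  set Bad : Finset (∀ x, Alph V C Q s x) :=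
    univ.filter fun ω : ∀ x, Alph V C Q s x =>
      Keep Γ ψ₀ ω ∧ ∀ ψ ∈ G, ¬ Keep Γ ψ ω with hBad
  let Z' : Finset (V ⊕ C) := Z.disjSum ψ₀
  have hZl : ∀ v : V, (Sum.inl v : V ⊕ C) ∈ Z' ↔ v ∈ Z := fun v => Finset.inl_mem_disjSum
  have hZr : ∀ c : C, (Sum.inr c : V ⊕ C) ∈ Z' ↔ c ∈ ψ₀ := fun c => Finset.inr_mem_disjSum
  have hfix : ∀ a : ∀ x, Alph V C Q s x,
      ((univ.filter fun ω : ∀ x, Alph V C Q s x => merge Z' a ω ∈ Bad).card : ℝ) * 4 ^ b ≤
      Fintype.card (∀ x, Alph V C Q s x) := by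
    intro a
    by_cases ha : Keep Γ ψ₀ a
    · let E : Finset C → Finset (∀ x, Alph V C Q s x) := fun ψ =>
        univ.filter fun ω => Keep Γ ψ (merge Z' a ω)
      have hbm := blocks_main G' (Finset.card_pos.mp hG'pos) E U (by
        intro ψ _ x y hxy hx
        simp only [E, mem_filter, mem_univ, true_and] at hx ⊢
        refine Keep.congr (fun z hz => ?_) hx
        rcases z with v | c
        · rw [Finset.inl_mem_disjSum] at hz
          by_cases hvZ : v ∈ Z
          · simp [merge, hZl, hvZ]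
          · simp only [merge, hZl, hvZ, if_false]
            exact hxy (Sum.inl v) (by
              simp only [U, Finset.inl_mem_disjSum]
              exact mem_sdiff.mpr ⟨hz, hvZ⟩)
        · rw [Finset.inr_mem_disjSum] at hz
          by_cases hcZ : c ∈ ψ₀
          · simp [merge, hZr, hcZ]
          · simp only [merge, hZr, hcZ, if_false]
            exact hxy (Sum.inr c) (by
              simp only [U, Finset.inr_mem_disjSum]
              exact mem_sdiff.mpr ⟨hz, hcZ⟩)) (by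
        intro ψ hψ
        have hψ' := hψ
        rw [hG', mem_filter] at hψ'
        obtain ⟨α, hα1, hα2⟩ := hext Z (ψ \ ψ₀) (fun v => a (Sum.inl v)) (by
          intro T hTs hTn hTb
          exact hψ'.2 ⟨T, hTs, hTn, hTb⟩)
        let ω : ∀ x, Alph V C Q s x := fun x =>
          match x with
          | Sum.inl v => α v
          | Sum.inr _ => (⟨0, hs⟩ : Fin s)
        refine ⟨ω, ?_⟩
        simp only [E, mem_filter, mem_univ, true_and]
        intro c hc
        have hml : (fun v => merge Z' a ω (Sum.inl v)) = α := by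
          funext v
          by_cases hvZ : v ∈ Z
          · simp [merge, hZl, hvZ, hα1 v hvZ]
          · simp [merge, hZl, hvZ, ω]
        rw [hml]
        by_cases hc0 : c ∈ ψ₀
        · refine ⟨Γ.dep c _ _ (fun v hv => ?_) (ha c hc0).1, ?_⟩
          · exact (hα1 v (hZ (mem_biUnion.mpr ⟨c, hc0, hv⟩))).symm
          · have : merge Z' a ω (Sum.inr c) = a (Sum.inr c) := by
              simp [merge, hZr, hc0]
            rw [this]
            exact (ha c hc0).2
        · refine ⟨hα2 c (mem_sdiff.mpr ⟨hc, hc0⟩), ?_⟩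
          have : merge Z' a ω (Sum.inr c) = (⟨0, hs⟩ : Fin s) := by
            simp [merge, hZr, hc0, ω]
          rw [this]) b hb hps'
      refine le_trans ?_ hbm
      apply mul_le_mul_of_nonneg_right _ (by positivity)
      have : (univ.filter fun ω : ∀ x, Alph V C Q s x => merge Z' a ω ∈ Bad) ⊆
          univ.filter fun ω : ∀ x, Alph V C Q s x => ∀ ψ ∈ G', ω ∉ E ψ := by
        intro ω hω
        simp only [hBad, mem_filter, mem_univ, true_and] at hω ⊢
        intro ψ hψ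
        simp only [E, mem_filter, mem_univ, true_and]
        exact hω.2 ψ (hG'G hψ)
      refine Nat.cast_le.mpr ((Finset.card_le_card this).trans (le_of_eq ?_))
      congr!
    · have : (univ.filter fun ω : ∀ x, Alph V C Q s x => merge Z' a ω ∈ Bad) = ∅ := by
        rw [Finset.filter_eq_empty_iff]
        intro ω _ hω
        simp only [hBad, mem_filter, mem_univ, true_and] at hω
        apply ha
        refine Keep.congr (fun z hz => ?_) hω.1
        rcases z with v | c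
        · rw [Finset.inl_mem_disjSum] at hz
          simp [merge, hZl, hZ hz]
        · rw [Finset.inr_mem_disjSum] at hz
          simp [merge, hZr, hz]
      rw [this, card_empty, Nat.cast_zero, zero_mul]
      exact Nat.cast_nonneg _
  have havg := merge_avg Z' Bad
  have h1 : (Bad.card : ℝ) * Fintype.card (∀ x, Alph V C Q s x) ≤
      ∑ a : ∀ x, Alph V C Q s x,
        ((univ.filter fun ω : ∀ x, Alph V C Q s x => merge Z' a ω ∈ Bad).card : ℝ) := by
    exact_mod_cast havg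
  have h2 : (Bad.card : ℝ) * 4 ^ b * Fintype.card (∀ x, Alph V C Q s x) ≤
      (Fintype.card (∀ x, Alph V C Q s x) : ℝ) * Fintype.card (∀ x, Alph V C Q s x) := by
    calc (Bad.card : ℝ) * 4 ^ b * Fintype.card (∀ x, Alph V C Q s x)
        = (Bad.card : ℝ) * Fintype.card (∀ x, Alph V C Q s x) * 4 ^ b := by ring
      _ ≤ (∑ a : ∀ x, Alph V C Q s x,
            ((univ.filter fun ω : ∀ x, Alph V C Q s x => merge Z' a ω ∈ Bad).card : ℝ)) *
            4 ^ b :=
          mul_le_mul_of_nonneg_right h1 (by positivity)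
      _ = ∑ a : ∀ x, Alph V C Q s x,
            ((univ.filter fun ω : ∀ x, Alph V C Q s x => merge Z' a ω ∈ Bad).card : ℝ) *
              4 ^ b := by
          rw [Finset.sum_mul]
      _ ≤ ∑ _a : ∀ x, Alph V C Q s x, (Fintype.card (∀ x, Alph V C Q s x) : ℝ) :=
          Finset.sum_le_sum fun a _ => hfix a
      _ = _ := by rw [Finset.sum_const, card_univ, nsmul_eq_mul]
  rcases Nat.eq_zero_or_pos (Fintype.card (∀ x, Alph V C Q s x)) with h0 | hpos
  · have : IsEmpty (∀ x, Alph V C Q s x) := Fintype.card_eq_zero_iff.mp h0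
    have hB0 : Bad = ∅ := Finset.eq_empty_of_isEmpty _
    rw [hB0]; simp
  · have h3 : (Bad.card : ℝ) * 4 ^ b ≤ Fintype.card (∀ x, Alph V C Q s x) :=
      le_of_mul_le_mul_right h2 (by exact_mod_cast hpos)
    exact_mod_cast h3


end Pool.Agent.W115.Mon2

namespace Pool.Agent.W115.RC

open Finset Mon Mon2

variable {V Q C : Type} [Fintype V] [DecidableEq V] [Fintype Q] [DecidableEq Q]
  [Fintype C] [DecidableEq C]

open Classical in
theorem flowers_kept {k w b r κ B s : ℕ} {bad : Finset V → Finset C → Prop} {Γ : CSys V Q C}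
    (hp : Params Γ k w b r κ B s bad) : Flowers (kept Γ s) w b r := by
  intro F j hjw hF hcard
  obtain ⟨ψ₀, L, hLF, hLn, hss, hsmall⟩ := flower_link Γ (s := s) hp.hk bad (by
      intro Z hZ t ht htw
      have := hp.hcount Z hZ t ht htw
      rwa [Nat.card_eq_fintype_card, Fintype.card_subtype] at this) hp.hext hp.hb hp.hs hp.hr
      hp.hr1 hp.hκ1 hp.hκ hp.hr2 F hjw hF hcard
  refine ⟨ψ₀, L, hLF, hLn, hss, ?_⟩
  rw [Nat.card_eq_fintype_card, Fintype.card_subtype]
  have hc : Fintype.card (∀ x, Alph V C Q s x) = Fintype.card ((V → Q) × (C → Fin s)) :=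
    Fintype.card_congr (splitEquiv V C Q s)
  rw [← hc]
  refine le_trans (Nat.mul_le_mul_right _ ?_) hsmall
  apply Finset.card_le_card_of_injOn (fun p => (splitEquiv V C Q s).symm p)
  · intro p hp'
    simp only [coe_filter, mem_univ, true_and, Set.mem_ofPred_eq] at hp' ⊢
    rw [keep_iff, Equiv.apply_symm_apply]
    refine ⟨hp'.1, fun ψ' hψ' => ?_⟩
    rw [keep_iff, Equiv.apply_symm_apply]
    exact hp'.2 ψ' hψ'
  · exact (splitEquiv V C Q s).symm.injective.injOn

end Pool.Agent.W115.RC
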