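import Pool.Agent.W115.Mon2.Lower
import Pool.Agent.W115.RC.Flower

/-!
Asymptotic form of the lower bound, for monotone real circuits.
-/

set_option linter.unusedSectionVars false

namespace Pool.Agent.W115.Mon2

open Finset Filter Mon
open Pool.Agent.W115.RC (RealCircuit)

variable {q n k : ℕ} [NeZero q]

open Classical in
theorem real_lower_bound (hk : 2 ≤ k) (P : (Fin k → ZMod q) → Prop) (ρ : ℝ) (hρ : 0 ≤ ρ)
    (hcore : ¬ HasCore P ρ) (ε c τ : ℝ) (hc : 0 < c)
    (hτ : 0 ≤ τ) (hcε : 3 * k * (c + τ) < ε) :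
    ∀ᶠ n : ℕ in atTop, ∀ s : ℕ, 1 ≤ s → ∀ m : ℕ, (m : ℝ) ≤ (n : ℝ) ^ ((k : ℝ) - ρ - ε) →
      (m : ℝ) * s ≤ (n : ℝ) ^ ((k : ℝ) - ε) →
      ∀ d : ℕ, (d : ℝ) ≤ 2 * (n : ℝ) ^ τ →
      ∀ K : RealCircuit (Con q n k) d, (K.size : ℝ) ≤ Real.exp ((n : ℝ) ^ c) →
        ((univ.filter fun p : (Fin n → ZMod q) × (Con q n k → Fin s) =>
          ¬ K.Accepts (planted P p.1 p.2)).card : ℝ) ≤
          Real.exp (-(n : ℝ) ^ c) *
            Fintype.card ((Fin n → ZMod q) × (Con q n k → Fin s)) ∨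
        ((univ.filter fun f : Fin m → Con q n k => K.Accepts (univ.image f)).card : ℝ) ≤
          (n : ℝ) ^ (-(2 * (ε - 3 * k * (c + τ)) / 3)) * Fintype.card (Fin m → Con q n k) := by
  have hq1 : 1 ≤ q := Nat.one_le_iff_ne_zero.mpr (NeZero.ne q)
  have hqR : (1 : ℝ) ≤ q := by exact_mod_cast hq1
  set c₁ : ℝ := c + τ with hc₁
  have hc₁0 : 0 < c₁ := by rw [hc₁]; linarith
  set δ : ℝ := ε - 3 * k * c₁ with hδ
  have hδpos : 0 < δ := by linarith
  have hkR : (2 : ℝ) ≤ k := by exact_mod_cast hk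
  have hkpos : (0 : ℝ) < k := by linarith
  set η : ℝ := δ / (8 * k) with hη
  have hηpos : 0 < η := by positivity
  have hcast : Tendsto (fun n : ℕ => (n : ℝ)) atTop atTop := tendsto_natCast_atTop_atTop
  have e1 : ∀ᶠ n : ℕ in atTop, 2 * k + 1 ≤ n := eventually_ge_atTop _
  have e2 : ∀ᶠ n : ℕ in atTop, 3 * constL q k ρ ≤ (n : ℝ) ^ (δ / 12) :=
    ((tendsto_rpow_atTop (by positivity : 0 < δ / 12)).comp hcast).eventually_ge_atTop _
  have e3 : ∀ᶠ n : ℕ in atTop, constL q k ρ * Real.exp 2 ≤ (n : ℝ) ^ (3 * δ / 4) :=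
    ((tendsto_rpow_atTop (by positivity : 0 < 3 * δ / 4)).comp hcast).eventually_ge_atTop _
  have e4 : ∀ᶠ n : ℕ in atTop, 5 ≤ (n : ℝ) ^ c :=
    ((tendsto_rpow_atTop hc).comp hcast).eventually_ge_atTop _
  have e5 := log_small (4 * k) (q + 1) η (by linarith) hηpos
  have e6 := log_small (τ + 1) 4 c (by norm_num) hc
  filter_upwards [e1, e2, e3, e4, e5, e6] with n hn1 hn2 hn3 hn4 hn5 hn6
  intro s hs m hm hms d hd K hK
  set x : ℝ := (n : ℝ) with hx
  have hx1 : 1 ≤ x := by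
    have : 1 ≤ n := by omega
    rw [hx]; exact_mod_cast this
  have hx0 : 0 < x := by linarith
  -- parameters
  set j₀ : ℕ := ⌈x ^ c⌉₊ with hj₀
  set w : ℕ := max 1 (d * j₀) with hw
  set b : ℕ := ⌈x ^ (c₁ + η)⌉₊ with hb
  set κ : ℕ := 20 * (b * q) * (k * w) with hκ
  set R : ℕ := ⌈(x + 1) ^ ρ⌉₊ with hR
  set r : ℕ := 8 * ((R * (2 * (k * w) * q) ^ k) * κ ^ k) + 20 * ((b * s) * κ ^ k) * w with hr
  have hxc1 : 1 ≤ x ^ c := Real.one_le_rpow hx1 hc.le
  have hτ1 : 1 ≤ x ^ τ := Real.one_le_rpow hx1 hτ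
  have hxc₁ : x ^ c * x ^ τ = x ^ c₁ := by rw [← Real.rpow_add hx0, hc₁]
  have hxcc : x ^ c ≤ x ^ c₁ := by
    rw [← hxc₁]; exact le_mul_of_one_le_right (by linarith) hτ1
  have hxc₁1 : 1 ≤ x ^ c₁ := hxc1.trans hxcc
  have hxcη1 : 1 ≤ x ^ (c₁ + η) := Real.one_le_rpow hx1 (by positivity)
  have hj1 : x ^ c ≤ j₀ := Nat.le_ceil _
  have hj2 : (j₀ : ℝ) ≤ 2 * x ^ c := ceil_le_two hxc1
  have hb1 : x ^ (c₁ + η) ≤ b := Nat.le_ceil _
  have hb2 : (b : ℝ) ≤ 2 * x ^ (c₁ + η) := ceil_le_two hxcη1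
  have hxρ : (x + 1) ^ ρ ≤ 2 ^ ρ * x ^ ρ := by
    rw [← Real.mul_rpow (by norm_num) hx0.le]
    exact Real.rpow_le_rpow (by linarith) (by linarith) hρ
  have hR2 : (R : ℝ) ≤ 2 * (2 ^ ρ * x ^ ρ) := by
    have h1 : (1 : ℝ) ≤ (x + 1) ^ ρ := Real.one_le_rpow (by linarith) hρ
    exact (ceil_le_two h1).trans (mul_le_mul_of_nonneg_left hxρ (by norm_num))
  have hj0pos : 1 ≤ j₀ := by
    have : (1 : ℝ) ≤ j₀ := hxc1.trans hj1
    exact_mod_cast this
  have hbpos : 1 ≤ b := by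
    have : (1 : ℝ) ≤ b := hxcη1.trans hb1
    exact_mod_cast this
  have hwpos : 1 ≤ w := le_max_left _ _
  have hκpos : 1 ≤ κ := by
    rw [hκ]
    have : 0 < 20 * (b * q) * (k * w) := by positivity
    omega
  have hrpos : 1 ≤ r := by
    rw [hr]
    have : 0 < 20 * ((b * s) * κ ^ k) * w := by positivity
    omega
  have hwR : (w : ℝ) ≤ 4 * x ^ c₁ := by
    rw [hw, Nat.cast_max]
    refine max_le (by push_cast; linarith) ?_
    calc ((d * j₀ : ℕ) : ℝ) = d * j₀ := by push_cast; ring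
      _ ≤ (2 * x ^ τ) * (2 * x ^ c) := by gcongr
      _ = 4 * x ^ c₁ := by rw [← hxc₁]; ring
  have hκR : (κ : ℝ) ≤ 160 * q * k * x ^ (2 * c₁ + η) := by
    rw [hκ]; push_cast
    have h1 : x ^ (2 * c₁ + η) = x ^ (c₁ + η) * x ^ c₁ := by
      rw [← Real.rpow_add hx0]; congr 1; ring
    rw [h1]
    calc 20 * ((b : ℝ) * q) * (k * w) ≤ 20 * ((2 * x ^ (c₁ + η)) * q) * (k * (4 * x ^ c₁)) := by
          gcongr
      _ = _ := by ring
  have hκk : (κ : ℝ) ^ k ≤ (160 * q * k) ^ k * (x ^ (2 * c₁ + η)) ^ k := by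
    rw [← mul_pow]
    exact pow_le_pow_left₀ (by positivity) hκR k
  have h2ρ : (0 : ℝ) < 2 ^ ρ := Real.rpow_pos_of_pos (by norm_num) _
  have hrR : (r : ℝ) ≤ ((16 * 2 ^ ρ * (8 * k * q) ^ k + 160) * (160 * q * k) ^ k) *
      ((x ^ ρ + s) * x ^ (3 * k * c₁ + δ / 4)) := by
    rw [hr]; push_cast
    have hexp : x ^ (c₁ * k) * (x ^ (2 * c₁ + η)) ^ k ≤ x ^ (3 * k * c₁ + δ / 4) := by
      rw [← Real.rpow_natCast, ← Real.rpow_mul hx0.le, ← Real.rpow_add hx0]
      apply Real.rpow_le_rpow_of_exponent_le hx1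
      have h1 : η * k = δ / 8 := by rw [hη]; field_simp
      have h2 : c₁ * k + (2 * c₁ + η) * k = 3 * k * c₁ + η * k := by ring
      rw [h2, h1]
      linarith
    have hexp2 : x ^ (c₁ + η) * x ^ c₁ * (x ^ (2 * c₁ + η)) ^ k ≤ x ^ (3 * k * c₁ + δ / 4) := by
      rw [← Real.rpow_natCast, ← Real.rpow_mul hx0.le, ← Real.rpow_add hx0, ← Real.rpow_add hx0]
      apply Real.rpow_le_rpow_of_exponent_le hx1
      have h1 : η * k = δ / 8 := by rw [hη]; field_simp
      have h2 : η ≤ δ / 16 := by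
        rw [hη]
        apply div_le_div_of_nonneg_left hδpos.le (by norm_num) (by linarith)
      have h3 : 2 * c₁ ≤ k * c₁ := mul_le_mul_of_nonneg_right hkR hc₁0.le
      have h4 : c₁ + η + c₁ + (2 * c₁ + η) * k = 2 * c₁ + 2 * (k * c₁) + η + η * k := by ring
      have h5 : 3 * (k : ℝ) * c₁ = k * c₁ + 2 * (k * c₁) := by ring
      rw [h4, h1, h5]
      linarith
    have hfirst : 8 * (((R : ℝ) * (2 * (k * w) * q) ^ k) * κ ^ k) ≤
        (16 * 2 ^ ρ * (8 * k * q) ^ k) * (160 * q * k) ^ k *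
          (x ^ ρ * x ^ (3 * k * c₁ + δ / 4)) := by
      calc 8 * (((R : ℝ) * (2 * (k * w) * q) ^ k) * κ ^ k)
          ≤ 8 * (((2 * (2 ^ ρ * x ^ ρ)) * (2 * (k * (4 * x ^ c₁)) * q) ^ k) *
            ((160 * q * k) ^ k * (x ^ (2 * c₁ + η)) ^ k)) := by
            gcongr
        _ = (16 * 2 ^ ρ * (8 * k * q) ^ k) * (160 * q * k) ^ k *
            (x ^ ρ * (x ^ (c₁ * k) * (x ^ (2 * c₁ + η)) ^ k)) := by
            rw [show 2 * ((k : ℝ) * (4 * x ^ c₁)) * q = (8 * k * q) * x ^ c₁ by ring,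
              mul_pow _ (x ^ c₁)]
            rw [show (x ^ c₁) ^ k = x ^ (c₁ * k) by
              rw [← Real.rpow_natCast, ← Real.rpow_mul hx0.le]]
            ring
        _ ≤ _ := by
            apply mul_le_mul_of_nonneg_left _ (by positivity)
            exact mul_le_mul_of_nonneg_left hexp (by positivity)
    have hsecond : 20 * (((b : ℝ) * s) * κ ^ k) * w ≤
        160 * (160 * q * k) ^ k * (s * x ^ (3 * k * c₁ + δ / 4)) := by
      calc 20 * (((b : ℝ) * s) * κ ^ k) * w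
          ≤ 20 * (((2 * x ^ (c₁ + η)) * s) * ((160 * q * k) ^ k * (x ^ (2 * c₁ + η)) ^ k)) *
            (4 * x ^ c₁) := by
            gcongr
        _ = 160 * (160 * q * k) ^ k *
            (s * (x ^ (c₁ + η) * x ^ c₁ * (x ^ (2 * c₁ + η)) ^ k)) := by ring
        _ ≤ _ := by
            apply mul_le_mul_of_nonneg_left _ (by positivity)
            exact mul_le_mul_of_nonneg_left hexp2 (by positivity)
    have hX : (0 : ℝ) ≤ x ^ (3 * k * c₁ + δ / 4) := by positivity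
    have hA : (0 : ℝ) ≤ (16 * 2 ^ ρ * (8 * k * q) ^ k) * (160 * q * k) ^ k *
        (s * x ^ (3 * k * c₁ + δ / 4)) := by positivity
    have hB : (0 : ℝ) ≤ 160 * (160 * q * k) ^ k * (x ^ ρ * x ^ (3 * k * c₁ + δ / 4)) := by
      positivity
    calc _ ≤ (16 * 2 ^ ρ * (8 * k * q) ^ k) * (160 * q * k) ^ k *
          (x ^ ρ * x ^ (3 * k * c₁ + δ / 4)) +
          160 * (160 * q * k) ^ k * (s * x ^ (3 * k * c₁ + δ / 4)) := add_le_add hfirst hsecond
      _ ≤ ((16 * 2 ^ ρ * (8 * k * q) ^ k) * (160 * q * k) ^ k *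
          (x ^ ρ * x ^ (3 * k * c₁ + δ / 4)) +
          160 * (160 * q * k) ^ k * (s * x ^ (3 * k * c₁ + δ / 4))) +
          ((16 * 2 ^ ρ * (8 * k * q) ^ k) * (160 * q * k) ^ k *
          (s * x ^ (3 * k * c₁ + δ / 4)) +
          160 * (160 * q * k) ^ k * (x ^ ρ * x ^ (3 * k * c₁ + δ / 4))) :=
          le_add_of_nonneg_right (add_nonneg hA hB)
      _ = _ := by ring
  set D : ℝ := (Fintype.card (Con q n k) : ℝ) with hD
  have hDlow : x ^ k ≤ 2 ^ k * D := con_lower (by omega)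
  have hDpos : 0 < D := by
    have h1 : 0 < x ^ k := by positivity
    by_contra hcon
    have h2 : 2 ^ k * D ≤ 0 :=
      mul_nonpos_of_nonneg_of_nonpos (by positivity) (not_lt.mp hcon)
    linarith
  set p : ℝ := (m : ℝ) / D with hp
  have hp0 : 0 ≤ p := by positivity
  have hpm : p * x ^ k ≤ 2 ^ k * m := by
    calc p * x ^ k ≤ p * (2 ^ k * D) := mul_le_mul_of_nonneg_left hDlow hp0
      _ = 2 ^ k * m := by rw [hp]; field_simp
  have hsm : (x ^ ρ + s) * m ≤ 2 * x ^ ((k : ℝ) - ε) := by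
    have h1 : x ^ ρ * m ≤ x ^ ((k : ℝ) - ε) := by
      calc x ^ ρ * m ≤ x ^ ρ * x ^ ((k : ℝ) - ρ - ε) :=
            mul_le_mul_of_nonneg_left hm (by positivity)
        _ = _ := by rw [← Real.rpow_add hx0]; congr 1; ring
    calc (x ^ ρ + s) * m = x ^ ρ * m + m * s := by ring
      _ ≤ _ := by linarith
  have hrp : (r : ℝ) * p ≤ constL q k ρ * x ^ (-(3 * δ / 4)) := by
    have hxk : (0 : ℝ) < x ^ k := by positivity
    apply le_of_mul_le_mul_right _ hxk
    set E := ((16 * 2 ^ ρ * (8 * k * q) ^ k + 160) * (160 * q * k) ^ k : ℝ) with hE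
    have hE0 : 0 ≤ E := by rw [hE]; positivity
    calc (r : ℝ) * p * x ^ k = r * (p * x ^ k) := by ring
      _ ≤ (E * ((x ^ ρ + s) * x ^ (3 * k * c₁ + δ / 4))) * (2 ^ k * m) :=
          mul_le_mul hrR hpm (by positivity) (by positivity)
      _ = (E * 2 ^ k * x ^ (3 * k * c₁ + δ / 4)) * ((x ^ ρ + s) * m) := by ring
      _ ≤ (E * 2 ^ k * x ^ (3 * k * c₁ + δ / 4)) * (2 * x ^ ((k : ℝ) - ε)) :=
          mul_le_mul_of_nonneg_left hsm (by positivity)
      _ = (2 ^ (k + 1) * E) * (x ^ (3 * k * c₁ + δ / 4) * x ^ ((k : ℝ) - ε)) := by ring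
      _ = (2 ^ (k + 1) * E) * (x ^ (-(3 * δ / 4)) * x ^ k) := by
          congr 1
          rw [← Real.rpow_natCast x k, ← Real.rpow_add hx0, ← Real.rpow_add hx0]
          congr 1
          rw [hδ]; ring
      _ = constL q k ρ * x ^ (-(3 * δ / 4)) * x ^ k := by
          rw [constL, ← hE]; ring
  have hC0 : 0 ≤ constL q k ρ := constL_nonneg q k ρ
  have hrp1 : (r : ℝ) * p ≤ Real.exp (-2) := by
    refine hrp.trans ?_
    rw [Real.rpow_neg hx0.le, Real.exp_neg, ← div_eq_mul_inv, div_le_iff₀ (by positivity)]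
    rw [← div_eq_inv_mul, le_div_iff₀ (by positivity)]
    exact hn3
  have hrp2 : (r : ℝ) * p ≤ x ^ (-(2 * δ / 3)) / 3 := by
    refine hrp.trans ?_
    have h1 : x ^ (-(3 * δ / 4)) = x ^ (-(2 * δ / 3)) * x ^ (-(δ / 12)) := by
      rw [← Real.rpow_add hx0]; congr 1; ring
    rw [h1]
    have h2 : constL q k ρ * x ^ (-(δ / 12)) ≤ 1 / 3 := by
      rw [Real.rpow_neg hx0.le, ← div_eq_mul_inv, div_le_iff₀ (by positivity)]
      linarith
    calc constL q k ρ * (x ^ (-(2 * δ / 3)) * x ^ (-(δ / 12)))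
        = x ^ (-(2 * δ / 3)) * (constL q k ρ * x ^ (-(δ / 12))) := by ring
      _ ≤ x ^ (-(2 * δ / 3)) * (1 / 3) := mul_le_mul_of_nonneg_left h2 (by positivity)
      _ = _ := by ring
  have hexp2 : Real.exp (-2) ≤ 1 / 2 := by
    rw [Real.exp_neg, inv_eq_one_div]
    apply one_div_le_one_div_of_le (by norm_num)
    have := Real.add_one_le_exp (2 : ℝ)
    linarith
  have hrp0 : 0 ≤ (r : ℝ) * p := by positivity
  have hparams := csp_params (n := n) P hρ hcore (w := w) (b := b) (κ := κ) (r := r) (s := s)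
    hbpos hs (by rw [hr]; exact Nat.le_add_right _ _) hrpos hκpos (le_of_eq hκ.symm)
    (by rw [hr]; exact Nat.le_add_left _ _)
  have hfin := RC.main_finite (Φ := Fin m → Con q n k)
    (form := fun f => univ.image f) (p := p) (RC.flowers_kept hparams) hwpos hp0
    (hrp1.trans hexp2) (fun T _ => random_form T) (j₀ := j₀) (le_max_right _ _) K
  rcases hfin with h | h
  · left
    simp only [kept_eq] at h
    set Ωc : ℝ := (Fintype.card ((Fin n → ZMod q) × (Con q n k → Fin s)) : ℝ) with hΩc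
    have h' : ((univ.filter fun p : (Fin n → ZMod q) × (Con q n k → Fin s) =>
          ¬ K.Accepts (planted P p.1 p.2)).card : ℝ) * 4 ^ b ≤
        K.size * ((numSmall (Con q n k) w : ℝ) * Ωc) := by
      rw [hΩc]; exact_mod_cast h
    -- bound numSmall
    have hlog0 : 0 ≤ Real.log (((q : ℝ) + 1) * x) :=
      Real.log_nonneg (one_le_mul_of_one_le_of_one_le (le_add_of_nonneg_left (by positivity)) hx1)
    have hN : (numSmall (Con q n k) w : ℝ) ≤
        Real.exp (4 * k * Real.log (((q : ℝ) + 1) * x) * x ^ c₁) := by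
      have h1 : (numSmall (Con q n k) w : ℝ) ≤ (D + 1) ^ w := by
        rw [hD]; exact_mod_cast numSmall_le (Con q n k) w
      have h2 : D + 1 ≤ (((q : ℝ) + 1) * x) ^ k := con_upper (by omega) (by omega)
      calc (numSmall (Con q n k) w : ℝ) ≤ (D + 1) ^ w := h1
        _ ≤ ((((q : ℝ) + 1) * x) ^ k) ^ w := pow_le_pow_left₀ (by positivity) h2 w
        _ = Real.exp (k * Real.log (((q : ℝ) + 1) * x) * w) := by
            rw [← pow_mul, ← Real.exp_log (by positivity : 0 < (((q : ℝ) + 1) * x) ^ (k * w)),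
              Real.log_pow]
            congr 1; push_cast; ring
        _ ≤ Real.exp (4 * k * Real.log (((q : ℝ) + 1) * x) * x ^ c₁) := by
            apply Real.exp_le_exp.mpr
            calc k * Real.log (((q : ℝ) + 1) * x) * w ≤
                k * Real.log (((q : ℝ) + 1) * x) * (4 * x ^ c₁) := by gcongr
              _ = _ := by ring
    have h4b : Real.exp (x ^ (c₁ + η)) ≤ (4 : ℝ) ^ b := by
      have h1 : Real.exp 1 ≤ 4 := by have := Real.exp_one_lt_d9; linarith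
      calc Real.exp (x ^ (c₁ + η)) ≤ Real.exp b := Real.exp_le_exp.mpr hb1
        _ = (Real.exp 1) ^ b := by rw [← Real.exp_nat_mul]; simp
        _ ≤ 4 ^ b := pow_le_pow_left₀ (by positivity) h1 b
    have hkey : Real.exp (x ^ c) * Real.exp (4 * k * Real.log (((q : ℝ) + 1) * x) * x ^ c₁) ≤
        Real.exp (-x ^ c) * 4 ^ b := by
      calc Real.exp (x ^ c) * Real.exp (4 * k * Real.log (((q : ℝ) + 1) * x) * x ^ c₁)
          = Real.exp (-x ^ c) *
            Real.exp (2 * x ^ c + 4 * k * Real.log (((q : ℝ) + 1) * x) * x ^ c₁) := by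
            rw [← Real.exp_add, ← Real.exp_add]; congr 1; ring
        _ ≤ Real.exp (-x ^ c) *
            Real.exp ((2 + 4 * k * Real.log (((q : ℝ) + 1) * x)) * x ^ c₁) := by
            apply mul_le_mul_of_nonneg_left _ (Real.exp_pos _).le
            apply Real.exp_le_exp.mpr
            rw [add_mul]
            linarith
        _ ≤ Real.exp (-x ^ c) * Real.exp (x ^ (c₁ + η)) := by
            apply mul_le_mul_of_nonneg_left _ (Real.exp_pos _).le
            apply Real.exp_le_exp.mpr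
            have hb3 : x ^ (c₁ + η) = x ^ η * x ^ c₁ := by
              rw [add_comm c₁ η]; exact Real.rpow_add hx0 η c₁
            rw [hb3]
            exact mul_le_mul_of_nonneg_right hn5 (by linarith)
        _ ≤ _ := mul_le_mul_of_nonneg_left h4b (Real.exp_pos _).le
    have h4pos : (0 : ℝ) < 4 ^ b := by positivity
    have hΩ0 : 0 ≤ Ωc := by rw [hΩc]; positivity
    apply le_of_mul_le_mul_right _ h4pos
    calc _ ≤ _ := h'
      _ ≤ Real.exp (x ^ c) *
          (Real.exp (4 * k * Real.log (((q : ℝ) + 1) * x) * x ^ c₁) * Ωc) := by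
          gcongr
      _ = (Real.exp (x ^ c) *
          Real.exp (4 * k * Real.log (((q : ℝ) + 1) * x) * x ^ c₁)) * Ωc := by ring
      _ ≤ (Real.exp (-x ^ c) * 4 ^ b) * Ωc := by gcongr
      _ = _ := by ring
  · right
    refine h.trans ?_
    apply mul_le_mul_of_nonneg_right _ (by positivity)
    have h1 : (r * p) ^ j₀ ≤ (r * p) * Real.exp (2 - 2 * x ^ c) := by
      have h2 : (r * p) ^ j₀ = (r * p) * (r * p) ^ (j₀ - 1) := by
        rw [← pow_succ']; congr 1; omega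
      rw [h2]
      apply mul_le_mul_of_nonneg_left _ hrp0
      calc (r * p) ^ (j₀ - 1) ≤ (Real.exp (-2)) ^ (j₀ - 1) := pow_le_pow_left₀ hrp0 hrp1 _
        _ = Real.exp (-2 * ((j₀ - 1 : ℕ) : ℝ)) := by
            rw [← Real.exp_nat_mul]; congr 1; ring
        _ ≤ _ := by
            apply Real.exp_le_exp.mpr
            rw [Nat.cast_sub hj0pos]
            push_cast
            linarith
    have hxτ : 4 * x ^ τ ≤ Real.exp (x ^ c - 2) := by
      have h6 : 0 ≤ Real.log x := Real.log_nonneg hx1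
      have h7 : Real.log (4 * x) = Real.log 4 + Real.log x :=
        Real.log_mul (by norm_num) hx0.ne'
      have h8 : 0 ≤ Real.log 4 := Real.log_nonneg (by norm_num)
      have h9 : 2 + (τ + 1) * Real.log (4 * x) ≤ x ^ c := hn6
      have h10 : 4 * x ^ τ = Real.exp (Real.log 4 + Real.log x * τ) := by
        rw [Real.exp_add, Real.exp_log (by norm_num), Real.rpow_def_of_pos hx0]
      rw [h10]
      apply Real.exp_le_exp.mpr
      rw [h7] at h9
      have h11 : 0 ≤ τ * Real.log 4 := mul_nonneg hτ h8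
      have h12 : (τ + 1) * (Real.log 4 + Real.log x) =
          τ * Real.log 4 + Real.log x * τ + Real.log 4 + Real.log x := by ring
      linarith
    have h3 : 2 * d * (K.size : ℝ) * (r * p) ^ j₀ ≤ (r * p) := by
      calc 2 * d * (K.size : ℝ) * (r * p) ^ j₀
          ≤ 2 * (2 * x ^ τ) * Real.exp (x ^ c) * ((r * p) * Real.exp (2 - 2 * x ^ c)) := by
            gcongr
        _ = (4 * x ^ τ) * ((r * p) * (Real.exp (x ^ c) * Real.exp (2 - 2 * x ^ c))) := by ring
        _ ≤ Real.exp (x ^ c - 2) *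
            ((r * p) * (Real.exp (x ^ c) * Real.exp (2 - 2 * x ^ c))) := by
            apply mul_le_mul_of_nonneg_right hxτ
            exact mul_nonneg hrp0 (mul_nonneg (Real.exp_pos _).le (Real.exp_pos _).le)
        _ = (r * p) * (Real.exp (x ^ c - 2) * (Real.exp (x ^ c) * Real.exp (2 - 2 * x ^ c))) := by
            ring
        _ = (r * p) := by
            rw [← Real.exp_add, ← Real.exp_add]
            have : x ^ c - 2 + (x ^ c + (2 - 2 * x ^ c)) = 0 := by ring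
            rw [this, Real.exp_zero, mul_one]
    calc 2 * d * (K.size : ℝ) * (r * p) ^ j₀ + 2 * (r * p) ≤ 3 * (r * p) := by linarith
      _ ≤ x ^ (-(2 * δ / 3)) := by linarith

end Pool.Agent.W115.Mon2
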