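import Pool.Agent.W115.Xor.Rejects
import Pool.Agent.W115.RC.LowerX

/-!
The gap problem for monotone real circuits.
-/

set_option autoImplicit false

namespace Pool.Agent.W115.Xor

open Finset Filter Pool.Agent.W115.Mon Pool.Agent.W115.Mon2
open Pool.Agent.W115.RC (RealCircuit)

variable {n k : ℕ}

open Classical in
theorem real_gap_bound {t : ℕ} {P : (Fin k → Bool) → Prop} (hP : Supports P t) (ht : t < k)
    (hk : 3 ≤ k) {δ c τ : ℝ} (hδ : 0 < δ) (hc : 0 < c) (hτ : 0 ≤ τ)
    (h1 : ((t : ℝ) + 2) * (c + τ) < t)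
    (h2 : max 1 (((t : ℝ) - 1) / 2) * (c + τ) < ((t : ℝ) - 1) / 2) :
    ∃ A : ℕ, ∃ ε : ℝ, 0 < ε ∧ ∀ᶠ n : ℕ in atTop, ∀ d : ℕ, (d : ℝ) ≤ 2 * (n : ℝ) ^ τ →
      ∀ K : RealCircuit (Con n k) d,
      (K.size : ℝ) ≤ Real.exp ((n : ℝ) ^ c) →
      Real.exp (-(n : ℝ) ^ c) * Fintype.card (Fin n → Bool) <
        ((univ.filter fun α : Fin n → Bool => ¬ K.Accepts (planted P α)).card : ℝ) →
      (1 - (n : ℝ) ^ (-ε)) * Fintype.card (Fin (A * n) → Con n k) ≤
        ((univ.filter fun f : Fin (A * n) → Con n k => Function.Injective f ∧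
          Far P (rejects P - δ) (univ.image f) ∧ ¬ K.Accepts (univ.image f)).card : ℝ) := by
  set g1 : ℝ := t - ((t : ℝ) + 2) * (c + τ) with hg1
  set g2 : ℝ := ((t : ℝ) - 1) / 2 - max 1 (((t : ℝ) - 1) / 2) * (c + τ) with hg2
  have hg1p : 0 < g1 := by rw [hg1]; linarith
  have hg2p : 0 < g2 := by rw [hg2]; linarith
  set ε : ℝ := min (min (g1 / 4) (g2 / 4)) (1 / 4) with hε
  have hε0 : 0 < ε := lt_min (lt_min (by positivity) (by positivity)) (by norm_num)
  have hε1 : ε ≤ g1 / 4 := (min_le_left _ _).trans (min_le_left _ _)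
  have hε2 : ε ≤ g2 / 4 := (min_le_left _ _).trans (min_le_right _ _)
  have hε3 : ε ≤ 1 / 4 := min_le_right _ _
  obtain ⟨A, hA⟩ := exists_nat_gt (4 / δ ^ 2)
  have hA1 : 4 < δ ^ 2 * A := by
    rw [div_lt_iff₀ (by positivity)] at hA
    linarith
  refine ⟨A, ε, hε0, ?_⟩
  have hcast : Tendsto (fun n : ℕ => (n : ℝ)) atTop atTop := tendsto_natCast_atTop_atTop
  have ev : ∀ a C : ℝ, 0 < a → ∀ᶠ n : ℕ in atTop, C ≤ (n : ℝ) ^ a := fun a C ha =>
    ((tendsto_rpow_atTop ha).comp hcast).eventually_ge_atTop _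
  have hlow := real_lower_bound hP ht (μ := 1 + ε) (c := c) (τ := τ) (ε := 2 * ε)
    (by linarith) hc hτ (by linarith) (by linarith) (by linarith)
  filter_upwards [hlow, ev ε A hε0, ev ε 3 hε0, ev (1 / 4) ((A : ℝ) ^ 2) (by norm_num),
    eventually_ge_atTop (2 * k + 1), ev 1 3 one_pos] with n hn hA2 h3 h4 h5 h6
  intro d hd K hK hrej
  set x : ℝ := (n : ℝ) with hx
  have hx1 : 1 ≤ x := by
    have : 1 ≤ n := by omega
    rw [hx]; exact_mod_cast this
  have hx0 : 0 < x := lt_of_lt_of_le one_pos hx1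
  rw [Real.rpow_one] at h6
  set T : ℝ := (Fintype.card (Fin (A * n) → Con n k) : ℝ) with hT
  have hT0 : 0 ≤ T := Nat.cast_nonneg _
  have hC1 : 1 ≤ Fintype.card (Con n k) :=
    le_trans (Nat.one_le_pow _ _ (by omega)) (con_card_ge (by omega))
  -- the accepted ones
  have ha : ((univ.filter fun f : Fin (A * n) → Con n k => K.Accepts (univ.image f)).card : ℝ) ≤
      x ^ (-(2 * ε)) * T := by
    have h7 : ((A * n : ℕ) : ℝ) ≤ (n : ℝ) ^ (1 + ε) := by
      push_cast
      rw [← hx, Real.rpow_add hx0, Real.rpow_one, mul_comm]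
      exact mul_le_mul_of_nonneg_left hA2 hx0.le
    rcases hn (A * n) h7 d hd K hK with h | h
    · exact absurd hrej (not_lt.mpr h)
    · exact h
  have hb := not_injective_count (m := A * n) (C := Con n k) hC1
  have hb' : ((A * n : ℕ) : ℝ) ^ 2 / Fintype.card (Con n k) ≤ x ^ (-(2 * ε)) := by
    have h7 : x ^ 3 ≤ (Fintype.card (Con n k) : ℝ) := by
      calc x ^ 3 ≤ x ^ k := pow_le_pow_right₀ hx1 hk
        _ ≤ _ := by rw [hx]; exact_mod_cast con_card_ge (by omega)
    have h8 : (0 : ℝ) < x ^ 3 := by positivity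
    calc ((A * n : ℕ) : ℝ) ^ 2 / Fintype.card (Con n k) ≤ ((A : ℝ) * x) ^ 2 / x ^ 3 := by
          push_cast
          rw [← hx]
          apply div_le_div_of_nonneg_left (by positivity) h8 h7
      _ = (A : ℝ) ^ 2 * x⁻¹ := by
          rw [mul_pow, div_eq_iff h8.ne']
          have : x⁻¹ * x ^ 3 = x ^ 2 := by
            rw [pow_succ' x 2, ← mul_assoc, inv_mul_cancel₀ hx0.ne', one_mul]
          rw [mul_assoc, this]
      _ ≤ x ^ (1 / 4 : ℝ) * x⁻¹ := mul_le_mul_of_nonneg_right h4 (by positivity)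
      _ = x ^ ((1 / 4 : ℝ) - 1) := by
          rw [Real.rpow_sub hx0, Real.rpow_one]
          rfl
      _ ≤ _ := Real.rpow_le_rpow_of_exponent_le hx1 (by linarith)
  have hf := not_far_count (m := A * n) (n := n) P hδ.le (by omega : k ≤ n)
  have hf' : 2 ^ n * (Real.exp (-(((A * n : ℕ) : ℝ) * δ ^ 2 / 2)) * T) ≤ x ^ (-(2 * ε)) * T := by
    rw [← mul_assoc]
    apply mul_le_mul_of_nonneg_right _ hT0
    have h7 : (2 : ℝ) ^ n ≤ Real.exp x := by
      calc (2 : ℝ) ^ n ≤ Real.exp 1 ^ n := by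
            apply pow_le_pow_left₀ (by norm_num)
            have := Real.add_one_le_exp (1 : ℝ)
            linarith
        _ = Real.exp x := by rw [← Real.exp_nat_mul, mul_one]
    calc (2 : ℝ) ^ n * Real.exp (-(((A * n : ℕ) : ℝ) * δ ^ 2 / 2))
        ≤ Real.exp x * Real.exp (-(2 * x)) := by
          apply mul_le_mul h7 _ (Real.exp_pos _).le (Real.exp_pos _).le
          apply Real.exp_le_exp.mpr
          push_cast
          rw [← hx]
          nlinarith
      _ = Real.exp (-x) := by rw [← Real.exp_add]; congr 1; ring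
      _ ≤ x⁻¹ := by
          rw [Real.exp_neg]
          apply inv_anti₀ hx0
          have := Real.add_one_le_exp x
          linarith
      _ = x ^ (-1 : ℝ) := by rw [Real.rpow_neg_one]
      _ ≤ _ := Real.rpow_le_rpow_of_exponent_le hx1 (by linarith)
  -- together
  have hcov : (univ : Finset (Fin (A * n) → Con n k)) ⊆
      (univ.filter fun f : Fin (A * n) → Con n k => Function.Injective f ∧
          Far P (rejects P - δ) (univ.image f) ∧ ¬ K.Accepts (univ.image f)) ∪
      ((univ.filter fun f : Fin (A * n) → Con n k => K.Accepts (univ.image f)) ∪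
      ((univ.filter fun f : Fin (A * n) → Con n k => NotInj f) ∪
      (univ.filter fun f : Fin (A * n) → Con n k =>
        ¬ (Function.Injective f → Far P (rejects P - δ) (univ.image f))))) := by
    intro f _
    simp only [mem_union, mem_filter, mem_univ, true_and]
    have hNI : NotInj f ↔ ¬ Function.Injective f := Iff.rfl
    tauto
  have hsum : T ≤ ((univ.filter fun f : Fin (A * n) → Con n k => Function.Injective f ∧
          Far P (rejects P - δ) (univ.image f) ∧ ¬ K.Accepts (univ.image f)).card : ℝ) +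
      (((univ.filter fun f : Fin (A * n) → Con n k => K.Accepts (univ.image f)).card : ℝ) +
      (((univ.filter fun f : Fin (A * n) → Con n k => NotInj f).card : ℝ) +
      ((univ.filter fun f : Fin (A * n) → Con n k =>
        ¬ (Function.Injective f → Far P (rejects P - δ) (univ.image f))).card : ℝ))) := by
    have h7 := Finset.card_le_card hcov
    rw [card_univ] at h7
    have h8 := h7.trans ((Finset.card_union_le _ _).trans (Nat.add_le_add_left
      ((Finset.card_union_le _ _).trans (Nat.add_le_add_left (Finset.card_union_le _ _) _)) _))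
    rw [hT]
    exact_mod_cast h8
  have h7 : x ^ (-(2 * ε)) * 3 ≤ x ^ (-ε) := by
    have h8 : x ^ (-(2 * ε)) * x ^ ε = x ^ (-ε) := by
      rw [← Real.rpow_add hx0]; congr 1; ring
    rw [← h8]
    exact mul_le_mul_of_nonneg_left h3 (by positivity)
  have hb2 := hb.trans (mul_le_mul_of_nonneg_right hb' hT0)
  have hf2 := hf.trans hf'
  have h8 : x ^ (-(2 * ε)) * 3 * T ≤ x ^ (-ε) * T := mul_le_mul_of_nonneg_right h7 hT0
  exact final_sum hsum ha hb2 hf2 h8

end Pool.Agent.W115.Xor
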